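import Pool.Agent.Helper39.LiT.HP

set_option autoImplicit false

/-!
# The converse: configurations with positive coefficients along a set which is not Bohr recurrent
-/

namespace Pool.Agent.Helper39.LiT

open Finset Complex
open scoped ComplexConjugate
open Pool.Agent.Helper39.LiS (ex ex_add ex_zero ex_neg ex_re norm_ex ex_pow pow_mul_ex_re fib fib_ne fib_mem
  tsum_fib summable_fib mirr mirr_admissible mirr_finite phase kern exists_kernel exists_diff BohrRecurrent dn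
  Admissible)

section

variable {ι : Type} (s : Finset ι) (f : ι → ℂ) (v : ℂ → ℂ)

lemma co_mirr (n : ℕ) : co (mirr s f) v n =
    ∑ i ∈ s, ((1 - (1 - v (f i)) ^ n).re + (1 - (1 - v (1 - conj (f i))) ^ n).re) := by
  rw [sum_add_distrib, ← tsum_fib s f fun ρ => (1 - (1 - v ρ) ^ n).re,
    ← tsum_fib s (fun i => 1 - conj (f i)) fun ρ => (1 - (1 - v ρ) ^ n).re,
    ← (summable_fib s f _).tsum_add (summable_fib s _ _)]
  unfold co mirr
  congr 1
  ext ρ
  push_cast
  ring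

end

/-- **the converse** -/
theorem conv {θ : ℝ} (h1 : 1 / 2 < θ) (h2 : θ < 1) {S : Set ℕ} (hS : ¬ BohrRecurrent S) :
    ∃ μ : ℂ → ℕ, Admissible μ ∧ (∀ ρ, μ (conj ρ) = μ ρ) ∧ {ρ | μ ρ ≠ 0}.Finite ∧
      (∃ ρ, μ ρ ≠ 0 ∧ θ < ρ.re) ∧
      ∃ c : ℝ, 0 < c ∧ ∀ n ∈ S, 0 < n → Real.exp (c * n) ≤ co μ (vh θ) n := by
  classical
  unfold BohrRecurrent at hS
  push Not at hS
  obtain ⟨k, α, ε, hε, hS⟩ := hS
  obtain ⟨β, hβ⟩ : ∃ β : Fin (k + 1) → ℝ, β = Fin.cons (1 / 2) α := ⟨_, rfl⟩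
  obtain ⟨M, C, hM, hC, hC2, hC3⟩ := exists_kernel (Nat.succ_pos k) β hε
  obtain ⟨D, hD⟩ : ∃ D : (Fin M → Fin (k + 1) × Bool) × (Fin M → Fin (k + 1) × Bool) → ℝ,
      D = fun p => phase β p.1 - phase β p.2 := ⟨_, rfl⟩
  -- the pairs with non-integral difference
  obtain ⟨P, hP⟩ : ∃ P : Finset ((Fin M → Fin (k + 1) × Bool) × (Fin M → Fin (k + 1) × Bool)),
      ∀ p, p ∈ P ↔ ¬ ∃ m : ℤ, D p = m := ⟨univ.filter fun p => ¬ ∃ m : ℤ, D p = m, fun p => by simp⟩
  -- nonempty
  obtain ⟨p₀, hp₀⟩ : ∃ p₀, p₀ ∈ P := by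
    obtain ⟨a, b, hab⟩ := exists_diff β hM 0
    refine ⟨(a, b), ?_⟩
    rw [hP, hD]
    rintro ⟨m, hm⟩
    simp only at hm
    rw [hab, hβ] at hm
    simp only [Fin.cons_zero] at hm
    have h1 : (1 : ℝ) = 2 * m := by linarith
    have h2 : (1 : ℤ) = 2 * m := by exact_mod_cast h1
    omega
  -- the cosines are bounded away from one
  have hcos : ∀ p ∈ P, Real.cos (2 * Real.pi * D p) < 1 := by
    intro p hp
    rw [hP] at hp
    refine lt_of_le_of_ne (Real.cos_le_one _) fun h1 => hp ?_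
    rw [Real.cos_eq_one_iff] at h1
    obtain ⟨m, hm⟩ := h1
    refine ⟨m, ?_⟩
    have := Real.pi_pos
    have h2 : 2 * Real.pi * (D p - m) = 0 := by rw [mul_sub, ← hm]; ring
    rcases mul_eq_zero.mp h2 with h3 | h3
    · linarith
    · linarith
  obtain ⟨c, hc0, hc1, hc2⟩ : ∃ c : ℝ, 0 ≤ c ∧ c < 1 ∧ ∀ p ∈ P, Real.cos (2 * Real.pi * D p) ≤ c := by
    obtain ⟨q, hq, hmax⟩ := P.exists_max_image (fun p => Real.cos (2 * Real.pi * D p)) ⟨p₀, hp₀⟩
    exact ⟨max 0 (Real.cos (2 * Real.pi * D q)), le_max_left _ _, max_lt one_pos (hcos q hq),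
      fun p hp => (hmax p hp).trans (le_max_right _ _)⟩
  obtain ⟨q, hq⟩ : ∃ q : ℝ, q = (2 * θ - 1) + 2 * (1 - θ) * c := ⟨_, rfl⟩
  have hq0 : 0 ≤ q := by
    rw [hq]
    have : 0 ≤ 2 * (1 - θ) * c := by
      have : 0 ≤ 1 - θ := by linarith
      positivity
    linarith
  have hq1 : q < 1 := by
    rw [hq]
    nlinarith
  obtain ⟨R, hRdef⟩ : ∃ R : ℝ, R = √(2 / (1 + q)) := ⟨_, rfl⟩
  have hR2 : R ^ 2 = 2 / (1 + q) := by
    rw [hRdef, Real.sq_sqrt (by positivity)]
  have hR21 : 1 < R ^ 2 := by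
    rw [hR2, lt_div_iff₀ (by linarith)]
    linarith
  have hRn : 0 ≤ R := by rw [hRdef]; exact Real.sqrt_nonneg _
  have hR1 : 1 < R := (one_lt_sq_iff₀ hRn).mp hR21
  have hR0 : 0 < R := by linarith
  have hRc : ∀ p ∈ P, R ^ 2 * (2 * θ - 1) + 2 * (1 - θ) * (R * Real.cos (2 * Real.pi * D p)) < 1 := by
    intro p hp
    have h3 : R * Real.cos (2 * Real.pi * D p) ≤ R ^ 2 * c := by
      calc R * Real.cos (2 * Real.pi * D p) ≤ R * c := by
            have := hc2 p hp
            gcongr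
        _ ≤ R ^ 2 * c := by
            apply mul_le_mul_of_nonneg_right _ hc0
            nlinarith
    calc R ^ 2 * (2 * θ - 1) + 2 * (1 - θ) * (R * Real.cos (2 * Real.pi * D p))
        ≤ R ^ 2 * (2 * θ - 1) + 2 * (1 - θ) * (R ^ 2 * c) := by
          have : 0 ≤ 2 * (1 - θ) := by linarith
          gcongr
      _ = R ^ 2 * q := by rw [hq]; ring
      _ < 1 := by
          rw [hR2, div_mul_eq_mul_div, div_lt_one (by linarith)]
          linarith
  obtain ⟨f, hf⟩ : ∃ f : (Fin M → Fin (k + 1) × Bool) × (Fin M → Fin (k + 1) × Bool) → ℂ,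
      f = fun p => ph θ R (D p) := ⟨_, rfl⟩
  have hadm : Admissible (mirr P f) := mirr_admissible fun p hp => by
    rw [hf]
    have := ph_re h1 h2 hR1 (hRc p hp)
    exact ⟨this.1, this.2.1⟩
  have hco : ∀ n : ℕ, P.card - R ^ n * ∑ p ∈ P, Real.cos (2 * Real.pi * (n * D p)) ≤ co (mirr P f) (vh θ) n := by
    intro n
    rw [co_mirr, mul_sum]
    have e1 : (P.card : ℝ) = ∑ p ∈ P, (1 : ℝ) := by simp
    rw [e1, ← sum_sub_distrib]
    refine sum_le_sum fun p hp => ?_
    have hre := ph_re h1 h2 hR1 (hRc p hp)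
    rw [hf]
    simp only
    have e2 : (1 - (1 - vh θ (ph θ R (D p))) ^ n).re = 1 - R ^ n * Real.cos (2 * Real.pi * (n * D p)) := by
      rw [ph_base h1 hR1, sub_re, pow_mul_ex_re, one_re]
    have hre2 : 0 < (1 - conj (ph θ R (D p))).re ∧ (1 - conj (ph θ R (D p))).re < 1 := by
      simp
      exact ⟨hre.2.1, hre.1⟩
    have e3 : 0 ≤ (1 - (1 - vh θ (1 - conj (ph θ R (D p)))) ^ n).re := by
      apply term_nonneg
      rw [base_le h1 hre2]
      simp
      linarith [hre.2.2]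
    linarith
  -- swapping
  have hswap : ∀ p, p ∈ P → p.swap ∈ P := by
    intro p hp
    rw [hP] at hp ⊢
    rintro ⟨m, hm⟩
    apply hp
    refine ⟨-m, ?_⟩
    rw [hD] at hm ⊢
    simp only [Prod.fst_swap, Prod.snd_swap] at hm ⊢
    push_cast
    linarith
  have hfswap : ∀ p, f p.swap = conj (f p) := by
    intro p
    rw [hf]
    simp only
    rw [ph_conj]
    congr 1
    rw [hD]
    simp
  have hfibc : ∀ (F : (Fin M → Fin (k + 1) × Bool) × (Fin M → Fin (k + 1) × Bool) → ℂ),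
      (∀ p, F p.swap = conj (F p)) → ∀ ρ, fib P F (conj ρ) = fib P F ρ := by
    intro F hF ρ
    unfold fib
    refine Finset.card_bij' (fun p _ => p.swap) (fun p _ => p.swap) ?_ ?_ ?_ ?_
    · intro p hp
      rw [mem_filter] at hp ⊢
      refine ⟨hswap p hp.1, ?_⟩
      rw [hF, hp.2, conj_conj]
    · intro p hp
      rw [mem_filter] at hp ⊢
      refine ⟨hswap p hp.1, ?_⟩
      rw [hF, hp.2]
    · intro p _
      exact Prod.swap_swap p
    · intro p _
      exact Prod.swap_swap p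
  refine ⟨mirr P f, hadm, fun ρ => ?_, mirr_finite, ⟨f p₀, ?_, ?_⟩, Real.log R / 2, ?_, fun n hn hn0 => ?_⟩
  · unfold mirr
    rw [hfibc f hfswap, hfibc (fun i => 1 - conj (f i)) (fun p => by simp [hfswap])]
  · unfold mirr
    have := fib_mem f hp₀
    omega
  · rw [hf]
    exact (ph_re h1 h2 hR1 (hRc p₀ hp₀)).2.2
  · have := Real.log_pos hR1
    positivity
  · obtain ⟨i, hi⟩ := hS n hn hn0
    have h1 := hC3 n ⟨i.succ, by rw [hβ, Fin.cons_succ]; exact hi⟩
    -- the kernel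
    obtain ⟨Z, hZ⟩ : ∃ Z : Finset ((Fin M → Fin (k + 1) × Bool) × (Fin M → Fin (k + 1) × Bool)),
        ∀ p, p ∈ Z ↔ ∃ m : ℤ, D p = m := ⟨univ.filter fun p => ∃ m : ℤ, D p = m, fun p => by simp⟩
    have h2 : kern (phase β (M := M)) n = Z.card + ∑ p ∈ P, Real.cos (2 * Real.pi * (n * D p)) := by
      unfold kern
      have e1 : (univ : Finset ((Fin M → Fin (k + 1) × Bool) × (Fin M → Fin (k + 1) × Bool))) = Z ∪ P := by
        ext p
        simp only [mem_univ, mem_union, hZ, hP, true_iff]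
        exact em _
      have e2 : Disjoint Z P := by
        rw [Finset.disjoint_left]
        intro p h3 h4
        rw [hP] at h4
        rw [hZ] at h3
        exact h4 h3
      rw [e1, sum_union e2]
      congr 1
      · rw [sum_congr rfl (g := fun _ => (1 : ℝ))]
        · simp
        · intro p hp
          rw [hZ] at hp
          obtain ⟨m, hm⟩ := hp
          rw [hD] at hm
          simp only at hm
          rw [hm, show 2 * Real.pi * ((n : ℝ) * (m : ℝ)) = ((n * m : ℤ) : ℝ) * (2 * Real.pi) by push_cast; ring,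
            Real.cos_int_mul_two_pi]
      · refine sum_congr rfl fun p _ => ?_
        rw [hD]
    have h3 : C ≤ Z.card := by
      refine hC2.trans ?_
      exact_mod_cast card_le_card fun p hp => by
        rw [mem_filter] at hp
        rw [hZ, hD]
        exact ⟨0, by simp [hp.2]⟩
    have h4 : (1 : ℝ) ≤ Z.card := by
      have h5 : 0 < Z.card := by
        have : (0 : ℝ) < Z.card := hC.trans_le h3
        exact_mod_cast this
      exact_mod_cast h5
    have h6 : ∑ p ∈ P, Real.cos (2 * Real.pi * (n * D p)) ≤ -(1 / 2) := by linarith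
    have h7 : (1 : ℝ) ≤ P.card := by
      exact_mod_cast Finset.card_pos.mpr ⟨p₀, hp₀⟩
    have h8 : Real.exp (Real.log R / 2 * n) ^ 2 = R ^ n := by
      rw [← Real.exp_nat_mul]
      conv_rhs => rw [← Real.exp_log hR0, ← Real.exp_nat_mul]
      congr 1
      push_cast
      ring
    have h10 : 0 < R ^ n := by positivity
    have h11 : R ^ n * ∑ p ∈ P, Real.cos (2 * Real.pi * (n * D p)) ≤ R ^ n * (-(1 / 2)) := by gcongr
    have h12 := hco n
    nlinarith [sq_nonneg (Real.exp (Real.log R / 2 * n) - 1)]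

end Pool.Agent.Helper39.LiT
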