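import Pool.Agent.Helper39.LiS.Pos

set_option autoImplicit false

/-!
# Sums of `Re (1 - (1 - v ρ) ^ n)` over a summable divisor: asymptotics and signs
-/

namespace Pool.Agent.Helper39.LiT

open Complex Filter Topology
open Pool.Agent.Helper39.LiS (pow_taylor dn dn_nonneg dn_le_half cos_dn syndetic ev_small cos_ge_half
  exists_neg cos_close)

/-- the data -/
structure Data (μ : ℂ → ℕ) (v : ℂ → ℂ) (C : ℝ) : Prop where
  pos : 0 < C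
  summable : Summable fun ρ => (μ ρ : ℝ) / (1 + ‖ρ‖) ^ 2
  sq : ∀ ρ, μ ρ ≠ 0 → ‖v ρ‖ ^ 2 ≤ C / (1 + ‖ρ‖) ^ 2
  re : ∀ ρ, μ ρ ≠ 0 → |(v ρ).re| ≤ C / (1 + ‖ρ‖) ^ 2

/-- the coefficients -/
noncomputable def co (μ : ℂ → ℕ) (v : ℂ → ℂ) (n : ℕ) : ℝ :=
  ∑' ρ : ℂ, (μ ρ : ℝ) * (1 - (1 - v ρ) ^ n).re

variable {μ : ℂ → ℕ} {v : ℂ → ℂ} {C : ℝ}

lemma Data.finite (h : Data μ v C) (R : ℝ) : {ρ : ℂ | μ ρ ≠ 0 ∧ ‖ρ‖ ≤ R}.Finite := by
  by_cases hR : R < 0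
  · convert Set.finite_empty
    ext ρ
    simp only [Set.mem_ofPred_eq, Set.mem_empty_iff_false, iff_false, not_and, not_le]
    intro _
    exact hR.trans_le (norm_nonneg _)
  push Not at hR
  have h1 := h.summable.tendsto_cofinite_zero
  have h2 : ∀ᶠ ρ : ℂ in cofinite, (μ ρ : ℝ) / (1 + ‖ρ‖) ^ 2 < 1 / (1 + R) ^ 2 :=
    h1.eventually_lt_const (by positivity)
  refine Set.Finite.subset (Filter.eventually_cofinite.mp h2) ?_
  rintro ρ ⟨h3, h4⟩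
  simp only [Set.mem_ofPred_eq, not_lt]
  have h5 : (1 : ℝ) ≤ μ ρ := by exact_mod_cast Nat.one_le_iff_ne_zero.mpr h3
  gcongr

/-- the summands -/
lemma Data.term_le (h : Data μ v C) {ρ : ℂ} (hρ : μ ρ ≠ 0) {M : ℝ} (hM1 : 1 ≤ M)
    (hM : ‖1 - v ρ‖ ≤ M) (n : ℕ) :
    |(1 - (1 - v ρ) ^ n).re| ≤ 2 * C * n ^ 2 * M ^ n / (1 + ‖ρ‖) ^ 2 := by
  have hT := pow_taylor (v ρ) M hM1 hM n
  have e : (1 - (1 - v ρ) ^ n).re = n * (v ρ).re - ((1 - v ρ) ^ n - 1 + n * v ρ).re := by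
    simp
  have hMn : 1 ≤ M ^ n := one_le_pow₀ hM1
  have hnn : (n : ℝ) ≤ n ^ 2 := by
    rcases Nat.eq_zero_or_pos n with h | h
    · rw [h]; simp
    · have : (1 : ℝ) ≤ n := by exact_mod_cast h
      nlinarith
  have hC := h.pos
  have h4 : |((1 - v ρ) ^ n - 1 + n * v ρ).re| ≤ n ^ 2 * (C / (1 + ‖ρ‖) ^ 2) * M ^ n := by
    refine ((abs_re_le_norm _).trans hT).trans ?_
    have := h.sq ρ hρ
    gcongr
  have h5 : |(n : ℝ) * (v ρ).re| ≤ n ^ 2 * M ^ n * (C / (1 + ‖ρ‖) ^ 2) := by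
    rw [abs_mul, abs_of_nonneg (Nat.cast_nonneg n)]
    have h6 : (n : ℝ) ≤ n ^ 2 * M ^ n := by
      calc (n : ℝ) ≤ n ^ 2 * 1 := by linarith
        _ ≤ n ^ 2 * M ^ n := by gcongr
    have := h.re ρ hρ
    gcongr
  rw [e]
  calc |(n : ℝ) * (v ρ).re - ((1 - v ρ) ^ n - 1 + n * v ρ).re|
      ≤ |(n : ℝ) * (v ρ).re| + |((1 - v ρ) ^ n - 1 + n * v ρ).re| := abs_sub _ _
    _ ≤ n ^ 2 * M ^ n * (C / (1 + ‖ρ‖) ^ 2) + n ^ 2 * (C / (1 + ‖ρ‖) ^ 2) * M ^ n := add_le_add h5 h4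
    _ = 2 * C * n ^ 2 * M ^ n / (1 + ‖ρ‖) ^ 2 := by ring

/-- far points have bases close to one -/
lemma Data.far (h : Data μ v C) {s : ℝ} (hs : 1 < s) : ∃ R : ℝ, 0 < R ∧ ∀ ρ : ℂ, μ ρ ≠ 0 → R < ‖ρ‖ → ‖1 - v ρ‖ ≤ s := by
  have hs0 : 0 < s - 1 := by linarith
  have hC := h.pos
  refine ⟨√C / (s - 1), by positivity, fun ρ hρ hR => ?_⟩
  have h1 : ‖v ρ‖ ≤ √C / (1 + ‖ρ‖) := by
    rw [← Real.sqrt_sq (norm_nonneg (v ρ)), ← Real.sqrt_sq (show 0 ≤ 1 + ‖ρ‖ by positivity),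
      ← Real.sqrt_div hC.le]
    exact Real.sqrt_le_sqrt (h.sq ρ hρ)
  calc ‖1 - v ρ‖ ≤ ‖(1 : ℂ)‖ + ‖v ρ‖ := norm_sub_le _ _
    _ ≤ 1 + √C / (1 + ‖ρ‖) := by rw [norm_one]; gcongr
    _ ≤ 1 + (s - 1) := by
        gcongr
        rw [div_le_iff₀ (by positivity)]
        rw [div_lt_iff₀ hs0] at hR
        nlinarith [norm_nonneg ρ]
    _ = s := by ring

/-- a bound for all the bases -/
lemma Data.bound (h : Data μ v C) : ∃ M : ℝ, 1 ≤ M ∧ ∀ ρ, μ ρ ≠ 0 → ‖1 - v ρ‖ ≤ M := by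
  obtain ⟨R, _, hR⟩ := h.far (show (1 : ℝ) < 2 by norm_num)
  have hf := h.finite R
  obtain ⟨B, hB⟩ := (hf.image fun ρ : ℂ => ‖1 - v ρ‖).bddAbove
  refine ⟨max B 2, (by norm_num : (1 : ℝ) ≤ 2).trans (le_max_right _ _), fun ρ hρ => ?_⟩
  by_cases h1 : ‖ρ‖ ≤ R
  · exact (hB ⟨ρ, ⟨hρ, h1⟩, rfl⟩).trans (le_max_left _ _)
  · push Not at h1
    exact (hR ρ hρ h1).trans (le_max_right _ _)

lemma Data.summable_co (h : Data μ v C) (n : ℕ) :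
    Summable fun ρ : ℂ => (μ ρ : ℝ) * (1 - (1 - v ρ) ^ n).re := by
  obtain ⟨M, hM1, hM⟩ := h.bound
  refine Summable.of_norm_bounded (h.summable.mul_left (2 * C * n ^ 2 * M ^ n)) fun ρ => ?_
  by_cases h0 : μ ρ = 0
  · simp [h0]
  rw [norm_mul, Real.norm_of_nonneg (Nat.cast_nonneg _), Real.norm_eq_abs]
  calc (μ ρ : ℝ) * |(1 - (1 - v ρ) ^ n).re|
      ≤ (μ ρ : ℝ) * (2 * C * n ^ 2 * M ^ n / (1 + ‖ρ‖) ^ 2) := by
        gcongr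
        exact h.term_le h0 hM1 (hM ρ h0) n
    _ = 2 * C * n ^ 2 * M ^ n * ((μ ρ : ℝ) / (1 + ‖ρ‖) ^ 2) := by ring

/-- **the asymptotic formula** -/
theorem Data.asymp (h : Data μ v C) {ρ₁ : ℂ} (h1 : μ ρ₁ ≠ 0) (hr1 : 1 < ‖1 - v ρ₁‖) :
    ∃ (J : Finset ℂ) (r r' K : ℝ), J.Nonempty ∧ (∀ ρ ∈ J, μ ρ ≠ 0 ∧ ‖1 - v ρ‖ = r) ∧
      1 ≤ r' ∧ r' < r ∧ 0 < K ∧
      ∀ n : ℕ, 1 ≤ n → |co μ v n + ∑ ρ ∈ J, (μ ρ : ℝ) * ((1 - v ρ) ^ n).re| ≤ K * (n ^ 2 * r' ^ n) := by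
  classical
  have hC := h.pos
  -- far points have small bases
  obtain ⟨s, hs1, hs2⟩ := exists_between hr1
  obtain ⟨R, hR0, hR⟩ := h.far hs1
  obtain ⟨F, hF⟩ : ∃ F : Finset ℂ, ∀ ρ, ρ ∈ F ↔ (μ ρ ≠ 0 ∧ ‖ρ‖ ≤ R) :=
    ⟨(h.finite R).toFinset, fun ρ => by simp⟩
  have hρ₁F : ρ₁ ∈ F := by
    rw [hF]
    refine ⟨h1, ?_⟩
    by_contra hcon
    push Not at hcon
    have := hR ρ₁ h1 hcon
    linarith
  obtain ⟨ρ₂, hρ₂F, hmax⟩ := F.exists_max_image (fun ρ => ‖1 - v ρ‖) ⟨ρ₁, hρ₁F⟩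
  obtain ⟨r, hr⟩ : ∃ r : ℝ, r = ‖1 - v ρ₂‖ := ⟨_, rfl⟩
  have hr1' : ‖1 - v ρ₁‖ ≤ r := by
    rw [hr]
    exact hmax ρ₁ hρ₁F
  obtain ⟨J, hJ⟩ : ∃ J : Finset ℂ, J = F.filter fun ρ => ‖1 - v ρ‖ = r := ⟨_, rfl⟩
  -- the second largest
  obtain ⟨r', hr'1, hr'2, hr'3⟩ : ∃ r' : ℝ, s ≤ r' ∧ r' < r ∧
      ∀ ρ, μ ρ ≠ 0 → ρ ∉ J → ‖1 - v ρ‖ ≤ r' := by
    have hsr : s < r := by linarith
    obtain ⟨G, hG⟩ : ∃ G : Finset ℂ, G = F.filter fun ρ => ‖1 - v ρ‖ ≠ r := ⟨_, rfl⟩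
    have key : ∀ t : ℝ, s ≤ t → t < r → (∀ ρ ∈ G, ‖1 - v ρ‖ ≤ t) → ∃ r' : ℝ, s ≤ r' ∧ r' < r ∧
        ∀ ρ, μ ρ ≠ 0 → ρ ∉ J → ‖1 - v ρ‖ ≤ r' := by
      intro t ht1 ht2 ht3
      refine ⟨t, ht1, ht2, fun ρ h3 h4 => ?_⟩
      by_cases h5 : ‖ρ‖ ≤ R
      · apply ht3
        rw [hG, Finset.mem_filter]
        have h6 : ρ ∈ F := by rw [hF]; exact ⟨h3, h5⟩
        refine ⟨h6, fun h7 => h4 ?_⟩
        rw [hJ, Finset.mem_filter]
        exact ⟨h6, h7⟩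
      · push Not at h5
        exact (hR ρ h3 h5).trans ht1
    rcases G.eq_empty_or_nonempty with h3 | h3
    · exact key s le_rfl hsr (by simp [h3])
    · obtain ⟨ρ₃, hρ₃, hmax3⟩ := G.exists_max_image (fun ρ => ‖1 - v ρ‖) h3
      have h4 : ‖1 - v ρ₃‖ < r := by
        have h5 := hρ₃
        rw [hG, Finset.mem_filter] at h5
        refine lt_of_le_of_ne ?_ h5.2
        rw [hr]
        exact hmax ρ₃ h5.1
      refine key (max s ‖1 - v ρ₃‖) (le_max_left _ _) (max_lt hsr h4) fun ρ hρ => ?_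
      exact (hmax3 ρ hρ).trans (le_max_right _ _)
  have hr'0 : 1 ≤ r' := by linarith
  obtain ⟨T, hT⟩ : ∃ T : ℝ, T = ∑' ρ : ℂ, (μ ρ : ℝ) / (1 + ‖ρ‖) ^ 2 := ⟨_, rfl⟩
  have hT0 : 0 ≤ T := by rw [hT]; exact tsum_nonneg fun ρ => by positivity
  obtain ⟨D, hD⟩ : ∃ D : ℝ, D = ∑ ρ ∈ J, (μ ρ : ℝ) := ⟨_, rfl⟩
  have hD0 : 0 ≤ D := by rw [hD]; exact Finset.sum_nonneg fun ρ _ => Nat.cast_nonneg _
  refine ⟨J, r, r', D + 2 * C * T + 1, ?_, ?_, hr'0, hr'2, by positivity, fun n hn => ?_⟩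
  · refine ⟨ρ₂, ?_⟩
    rw [hJ, Finset.mem_filter]
    exact ⟨hρ₂F, hr.symm⟩
  · intro ρ hρ
    rw [hJ, Finset.mem_filter, hF] at hρ
    exact ⟨hρ.1.1, hρ.2⟩
  -- split the sum
  have hsum := h.summable_co n
  have hsplit : co μ v n = ∑ ρ ∈ J, (μ ρ : ℝ) * (1 - (1 - v ρ) ^ n).re +
      ∑' ρ : ℂ, (if ρ ∈ J then 0 else (μ ρ : ℝ) * (1 - (1 - v ρ) ^ n).re) := by
    have e1 : ∑ ρ ∈ J, (μ ρ : ℝ) * (1 - (1 - v ρ) ^ n).re =
        ∑' ρ : ℂ, (if ρ ∈ J then (μ ρ : ℝ) * (1 - (1 - v ρ) ^ n).re else 0) := by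
      rw [tsum_eq_sum (s := J)]
      · exact Finset.sum_congr rfl fun ρ hρ => by rw [if_pos hρ]
      · intro ρ hρ
        rw [if_neg hρ]
    rw [e1, ← Summable.tsum_add]
    · unfold co
      congr 1
      ext ρ
      by_cases h3 : ρ ∈ J <;> simp [h3]
    · refine summable_of_ne_finset_zero (s := J) fun ρ hρ => ?_
      rw [if_neg hρ]
    · refine Summable.of_norm_bounded hsum.norm fun ρ => ?_
      by_cases h3 : ρ ∈ J
      · rw [if_pos h3, norm_zero]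
        exact norm_nonneg _
      · rw [if_neg h3]
  have hrest : |∑' ρ : ℂ, (if ρ ∈ J then 0 else (μ ρ : ℝ) * (1 - (1 - v ρ) ^ n).re)| ≤
      2 * C * T * (n ^ 2 * r' ^ n) := by
    have hb : ∀ ρ : ℂ, ‖(if ρ ∈ J then 0 else (μ ρ : ℝ) * (1 - (1 - v ρ) ^ n).re)‖ ≤
        2 * C * n ^ 2 * r' ^ n * ((μ ρ : ℝ) / (1 + ‖ρ‖) ^ 2) := by
      intro ρ
      by_cases h3 : ρ ∈ J
      · rw [if_pos h3, norm_zero]
        positivity
      rw [if_neg h3]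
      by_cases h4 : μ ρ = 0
      · simp [h4]
      rw [norm_mul, Real.norm_of_nonneg (Nat.cast_nonneg _), Real.norm_eq_abs]
      calc (μ ρ : ℝ) * |(1 - (1 - v ρ) ^ n).re|
          ≤ (μ ρ : ℝ) * (2 * C * n ^ 2 * r' ^ n / (1 + ‖ρ‖) ^ 2) := by
            gcongr
            exact h.term_le h4 hr'0 (hr'3 ρ h4 h3) n
        _ = 2 * C * n ^ 2 * r' ^ n * ((μ ρ : ℝ) / (1 + ‖ρ‖) ^ 2) := by ring
    have h7 := tsum_of_norm_bounded (h.summable.mul_left (2 * C * n ^ 2 * r' ^ n)).hasSum hb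
    rw [Real.norm_eq_abs, tsum_mul_left, ← hT] at h7
    linarith
  have e2 : co μ v n + ∑ ρ ∈ J, (μ ρ : ℝ) * ((1 - v ρ) ^ n).re = D +
      ∑' ρ : ℂ, (if ρ ∈ J then 0 else (μ ρ : ℝ) * (1 - (1 - v ρ) ^ n).re) := by
    rw [hsplit, hD]
    have : ∑ ρ ∈ J, (μ ρ : ℝ) * (1 - (1 - v ρ) ^ n).re +
        ∑ ρ ∈ J, (μ ρ : ℝ) * ((1 - v ρ) ^ n).re = ∑ ρ ∈ J, (μ ρ : ℝ) := by
      rw [← Finset.sum_add_distrib]
      refine Finset.sum_congr rfl fun ρ _ => ?_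
      rw [Complex.sub_re, Complex.one_re]
      ring
    linarith
  rw [e2]
  have h8 : 1 ≤ (n : ℝ) ^ 2 * r' ^ n := by
    have h9 : (1 : ℝ) ≤ n := by exact_mod_cast hn
    have h10 : 1 ≤ r' ^ n := one_le_pow₀ hr'0
    calc (1 : ℝ) = 1 ^ 2 * 1 := by norm_num
      _ ≤ (n : ℝ) ^ 2 * r' ^ n := by gcongr
  calc |D + ∑' ρ : ℂ, (if ρ ∈ J then 0 else (μ ρ : ℝ) * (1 - (1 - v ρ) ^ n).re)|
      ≤ |D| + |∑' ρ : ℂ, (if ρ ∈ J then 0 else (μ ρ : ℝ) * (1 - (1 - v ρ) ^ n).re)| := abs_add_le _ _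
    _ ≤ D * (n ^ 2 * r' ^ n) + 2 * C * T * (n ^ 2 * r' ^ n) := by
        rw [abs_of_nonneg hD0]
        gcongr
        exact le_mul_of_one_le_right hD0 h8
    _ ≤ (D + 2 * C * T + 1) * (n ^ 2 * r' ^ n) := by nlinarith

/-- the angle of a base, divided by `2 π` -/
noncomputable def ang (w : ℂ) : ℝ := w.arg / (2 * Real.pi)

lemma pow_re_eq (w : ℂ) (n : ℕ) : (w ^ n).re = ‖w‖ ^ n * Real.cos (2 * Real.pi * (n * ang w)) := by
  have h1 : w ^ n = ((‖w‖ ^ n : ℝ) : ℂ) * cexp (((2 * Real.pi * (n * ang w) : ℝ) : ℂ) * I) := by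
    conv_lhs => rw [← Complex.norm_mul_exp_arg_mul_I w]
    rw [mul_pow, ← Complex.exp_nat_mul]
    have hpi : (Real.pi : ℂ) ≠ 0 := by exact_mod_cast Real.pi_ne_zero
    congr 1
    · push_cast; rfl
    · congr 1
      unfold ang
      push_cast
      field_simp
  rw [h1, Complex.re_ofReal_mul, Complex.exp_ofReal_mul_I_re]

lemma ang_not_int {w : ℂ} (hw : ¬ (0 ≤ w.re ∧ w.im = 0)) (m : ℤ) : ang w ≠ m := by
  intro h
  have hpi := Real.pi_pos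
  have h2 : w.arg = m * (2 * Real.pi) := by
    unfold ang at h
    rw [div_eq_iff (by positivity)] at h
    exact h
  have h3 := Complex.neg_pi_lt_arg w
  have h4 := Complex.arg_le_pi w
  rw [h2] at h3 h4
  have h5 : m = 0 := by
    have a1 : (-1 : ℝ) < m := by
      by_contra hc
      push Not at hc
      nlinarith
    have a2 : (m : ℝ) < 1 := by
      by_contra hc
      push Not at hc
      nlinarith
    have a3 : -1 < m := by exact_mod_cast a1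
    have a4 : m < 1 := by exact_mod_cast a2
    omega
  rw [h5, Int.cast_zero, zero_mul, Complex.arg_eq_zero_iff] at h2
  exact hw h2

/-- a large base makes the coefficients negative on a Bohr set -/
theorem Data.neg_on_bohr (h : Data μ v C) {ρ₀ : ℂ} (h0 : μ ρ₀ ≠ 0) (hne : 1 < ‖1 - v ρ₀‖) :
    ∃ (J : Finset ℂ) (c : ℝ) (N : ℕ), 0 < c ∧ ∀ n : ℕ, N ≤ n → (∀ ρ ∈ J, dn (n * ang (1 - v ρ)) ≤ 1 / 6) →
      co μ v n ≤ -Real.exp (c * n) := by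
  obtain ⟨J, r, r', K, hJ, hJ2, hr', hr, hK, has⟩ := h.asymp h0 hne
  have hr1 : 1 < r := hr'.trans_lt hr
  obtain ⟨N, hN⟩ := eventually_atTop.mp (ev_small (K := K) (δ := 1 / 4) (by linarith) hr (by norm_num))
  have h5 : ∀ᶠ n : ℕ in atTop, (n : ℕ) ≥ 1 ∧ Real.exp (Real.log r / 2 * n) ≤ r ^ n / 4 := by
    have hs : 1 < Real.exp (Real.log r / 2) := by
      rw [Real.one_lt_exp_iff]
      have := Real.log_pos hr1
      positivity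
    have h6 : Tendsto (fun n : ℕ => Real.exp (Real.log r / 2) ^ n) atTop atTop :=
      tendsto_pow_atTop_atTop_of_one_lt hs
    filter_upwards [h6.eventually_ge_atTop 4, eventually_ge_atTop 1] with n hn hn1
    refine ⟨hn1, ?_⟩
    have e1 : Real.exp (Real.log r / 2 * n) = Real.exp (Real.log r / 2) ^ n := by
      rw [← Real.exp_nat_mul]
      congr 1
      ring
    have e2 : r ^ n = Real.exp (Real.log r / 2) ^ n * Real.exp (Real.log r / 2) ^ n := by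
      rw [← mul_pow, ← Real.exp_add, add_halves, Real.exp_log (by linarith)]
    rw [e1, e2]
    nlinarith
  obtain ⟨N2, hN2⟩ := eventually_atTop.mp h5
  refine ⟨J, Real.log r / 2, max N N2, by have := Real.log_pos hr1; positivity, fun n hn hB => ?_⟩
  obtain ⟨hn1, hexp⟩ := hN2 n ((le_max_right _ _).trans hn)
  have h1 := hN n ((le_max_left _ _).trans hn)
  have h2 := has n hn1
  have h3 : r ^ n / 2 ≤ ∑ ρ ∈ J, (μ ρ : ℝ) * ((1 - v ρ) ^ n).re := by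
    obtain ⟨ρ₁, hρ₁⟩ := hJ
    have hrn : 0 < r ^ n := by positivity
    have hterm : ∀ ρ ∈ J, r ^ n / 2 ≤ (μ ρ : ℝ) * ((1 - v ρ) ^ n).re := by
      intro ρ hρ
      obtain ⟨g1, g2⟩ := hJ2 ρ hρ
      rw [pow_re_eq, g2]
      have g3 := cos_ge_half (hB ρ hρ)
      have g4 : (1 : ℝ) ≤ μ ρ := by exact_mod_cast Nat.one_le_iff_ne_zero.mpr g1
      calc r ^ n / 2 = 1 * (r ^ n * (1 / 2)) := by ring
        _ ≤ (μ ρ : ℝ) * (r ^ n * Real.cos (2 * Real.pi * (n * ang (1 - v ρ)))) := by gcongr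
    calc r ^ n / 2 ≤ (μ ρ₁ : ℝ) * ((1 - v ρ₁) ^ n).re := hterm ρ₁ hρ₁
      _ ≤ ∑ ρ ∈ J, (μ ρ : ℝ) * ((1 - v ρ) ^ n).re :=
          Finset.single_le_sum (f := fun ρ => (μ ρ : ℝ) * ((1 - v ρ) ^ n).re)
            (fun ρ hρ => by have := hterm ρ hρ; linarith [hrn.le]) hρ₁
  have h4 := (abs_le.mp h2).2
  linarith

/-- a large base makes the coefficients positive on a syndetic set -/
theorem Data.pos_syndetic_off (h : Data μ v C) (hang : ∀ ρ, μ ρ ≠ 0 → ∀ m : ℤ, ang (1 - v ρ) ≠ m)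
    {ρ₀ : ℂ} (h0 : μ ρ₀ ≠ 0) (hne : 1 < ‖1 - v ρ₀‖) :
    ∃ (c : ℝ) (K : ℕ), 0 < c ∧ ∀ N : ℕ, ∃ n : ℕ, N < n ∧ n ≤ N + K ∧ Real.exp (c * n) ≤ co μ v n := by
  obtain ⟨J, r, r', K, hJ, hJ2, hr', hr, hK, has⟩ := h.asymp h0 hne
  have hr1 : 1 < r := hr'.trans_lt hr
  obtain ⟨n₀, hn₀, hneg⟩ := exists_neg J hJ μ (fun ρ hρ => (hJ2 ρ hρ).1) (fun ρ => ang (1 - v ρ))
    (fun ρ hρ => hang ρ (hJ2 ρ hρ).1)
  obtain ⟨δ, hδ⟩ : ∃ δ : ℝ, δ = -(∑ ρ ∈ J, (μ ρ : ℝ) * Real.cos (2 * Real.pi * (n₀ * ang (1 - v ρ)))) / 2 := ⟨_, rfl⟩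
  have hδ0 : 0 < δ := by rw [hδ]; linarith
  obtain ⟨T, hT⟩ : ∃ T : ℝ, T = ∑ ρ ∈ J, (μ ρ : ℝ) := ⟨_, rfl⟩
  have hT0 : 0 ≤ T := by rw [hT]; exact Finset.sum_nonneg fun _ _ => Nat.cast_nonneg _
  have hpi := Real.pi_pos
  obtain ⟨B, hB⟩ := syndetic J (fun ρ => ang (1 - v ρ)) (show 0 < δ / (2 * Real.pi * (T + 1)) by positivity)
  have hev := ev_small (K := K) (δ := δ / 2) (by linarith) hr (by positivity)
  have h5 : ∀ᶠ n : ℕ in Filter.atTop, Real.exp (Real.log r / 2 * n) ≤ δ / 2 * r ^ n := by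
    have hs : 1 < Real.exp (Real.log r / 2) := by
      rw [Real.one_lt_exp_iff]
      have := Real.log_pos hr1
      positivity
    have h6 : Filter.Tendsto (fun n : ℕ => Real.exp (Real.log r / 2) ^ n) Filter.atTop Filter.atTop :=
      tendsto_pow_atTop_atTop_of_one_lt hs
    filter_upwards [h6.eventually_ge_atTop (2 / δ)] with n hn
    have e1 : Real.exp (Real.log r / 2 * n) = Real.exp (Real.log r / 2) ^ n := by
      rw [← Real.exp_nat_mul]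
      congr 1
      ring
    have e2 : r ^ n = Real.exp (Real.log r / 2) ^ n * Real.exp (Real.log r / 2) ^ n := by
      rw [← mul_pow, ← Real.exp_add, add_halves, Real.exp_log (by linarith)]
    rw [e1, e2]
    rw [div_le_iff₀ hδ0] at hn
    have h7 : 0 < Real.exp (Real.log r / 2) ^ n := by positivity
    nlinarith
  obtain ⟨N₁, hN₁⟩ := Filter.eventually_atTop.mp (hev.and (h5.and (Filter.eventually_ge_atTop 1)))
  refine ⟨Real.log r / 2, N₁ + B + n₀, by have := Real.log_pos hr1; positivity, fun N => ?_⟩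
  obtain ⟨b, hb1, hb2, hb3⟩ := hB (N + N₁)
  refine ⟨n₀ + b, by omega, by omega, ?_⟩
  obtain ⟨g1, g2, g3⟩ := hN₁ (n₀ + b) (by omega)
  have g4 := has (n₀ + b) g3
  have hrn : 0 < r ^ (n₀ + b) := by positivity
  have g5 : ∑ ρ ∈ J, (μ ρ : ℝ) * ((1 - v ρ) ^ (n₀ + b)).re ≤ -δ * r ^ (n₀ + b) := by
    have e1 : ∑ ρ ∈ J, (μ ρ : ℝ) * ((1 - v ρ) ^ (n₀ + b)).re =
        (∑ ρ ∈ J, (μ ρ : ℝ) * Real.cos (2 * Real.pi * ((n₀ + b : ℕ) * ang (1 - v ρ)))) * r ^ (n₀ + b) := by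
      rw [Finset.sum_mul]
      refine Finset.sum_congr rfl fun ρ hρ => ?_
      rw [pow_re_eq, (hJ2 ρ hρ).2]
      ring
    have e2 : ∑ ρ ∈ J, (μ ρ : ℝ) * Real.cos (2 * Real.pi * ((n₀ + b : ℕ) * ang (1 - v ρ))) ≤
        ∑ ρ ∈ J, (μ ρ : ℝ) * (Real.cos (2 * Real.pi * (n₀ * ang (1 - v ρ))) + δ / (T + 1)) := by
      refine Finset.sum_le_sum fun ρ hρ => ?_
      have e3 := (abs_le.mp (cos_close (n₀ * ang (1 - v ρ)) (b * ang (1 - v ρ)))).2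
      have e4 : 2 * Real.pi * dn (b * ang (1 - v ρ)) ≤ δ / (T + 1) := by
        calc 2 * Real.pi * dn (b * ang (1 - v ρ)) ≤ 2 * Real.pi * (δ / (2 * Real.pi * (T + 1))) := by
              have := (hb3 ρ hρ).le
              gcongr
          _ = δ / (T + 1) := by field_simp
      have e5 : ((n₀ + b : ℕ) : ℝ) * ang (1 - v ρ) = n₀ * ang (1 - v ρ) + b * ang (1 - v ρ) := by
        push_cast; ring
      rw [e5]
      gcongr
      linarith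
    have e3 : ∑ ρ ∈ J, (μ ρ : ℝ) * (Real.cos (2 * Real.pi * (n₀ * ang (1 - v ρ))) + δ / (T + 1)) ≤ -δ := by
      simp_rw [mul_add]
      rw [Finset.sum_add_distrib, ← Finset.sum_mul, ← hT]
      have e4 : T * (δ / (T + 1)) ≤ δ := by
        rw [← mul_div_assoc, div_le_iff₀ (by positivity)]
        nlinarith
      linarith
    rw [e1]
    have := e2.trans e3
    gcongr
  have g6 := (abs_le.mp g4).1
  linarith

/-- small bases -/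
lemma term_nonneg {w : ℂ} (hw : ‖w‖ ≤ 1) (n : ℕ) : 0 ≤ (1 - w ^ n).re := by
  rw [sub_re, one_re]
  have h1 : (w ^ n).re ≤ 1 := by
    refine (Complex.re_le_norm _).trans ?_
    rw [norm_pow]
    exact pow_le_one₀ (norm_nonneg _) hw
  linarith

theorem co_nonneg (hon : ∀ ρ, μ ρ ≠ 0 → ‖1 - v ρ‖ ≤ 1) (n : ℕ) : 0 ≤ co μ v n := by
  unfold co
  refine tsum_nonneg fun ρ => ?_
  by_cases h0 : μ ρ = 0
  · simp [h0]
  have := term_nonneg (hon ρ h0) n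
  positivity

/-- **positive coefficients have bounded gaps** -/
theorem Data.pos_syndetic (h : Data μ v C) (hang : ∀ ρ, μ ρ ≠ 0 → ∀ m : ℤ, ang (1 - v ρ) ≠ m)
    (hμ : ∃ ρ, μ ρ ≠ 0) : ∃ K : ℕ, ∀ N : ℕ, ∃ n : ℕ, N < n ∧ n ≤ N + K ∧ 0 < co μ v n := by
  by_cases hon : ∀ ρ, μ ρ ≠ 0 → ‖1 - v ρ‖ ≤ 1
  · obtain ⟨ρ₀, hρ₀⟩ := hμ
    refine ⟨2, fun N => ?_⟩
    have h2 : ∀ n : ℕ, Real.cos (2 * Real.pi * (n * ang (1 - v ρ₀))) < 1 → 0 < co μ v n := by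
      intro n hn
      unfold co
      refine (h.summable_co n).tsum_pos (fun ρ => ?_) ρ₀ ?_
      · by_cases h0 : μ ρ = 0
        · simp [h0]
        have := term_nonneg (hon ρ h0) n
        positivity
      · have h3 : ((1 - v ρ₀) ^ n).re < 1 := by
          rw [pow_re_eq]
          have h4 : ‖1 - v ρ₀‖ ^ n ≤ 1 := pow_le_one₀ (norm_nonneg _) (hon ρ₀ hρ₀)
          have h5 : 0 ≤ ‖1 - v ρ₀‖ ^ n := by positivity
          rcases le_or_gt 0 (Real.cos (2 * Real.pi * (n * ang (1 - v ρ₀)))) with h6 | h6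
          · calc ‖1 - v ρ₀‖ ^ n * Real.cos (2 * Real.pi * (n * ang (1 - v ρ₀)))
                ≤ 1 * Real.cos (2 * Real.pi * (n * ang (1 - v ρ₀))) := by gcongr
              _ < 1 := by rw [one_mul]; exact hn
          · have : ‖1 - v ρ₀‖ ^ n * Real.cos (2 * Real.pi * (n * ang (1 - v ρ₀))) ≤ 0 :=
              mul_nonpos_of_nonneg_of_nonpos h5 h6.le
            linarith
        have h4 : (0 : ℝ) < μ ρ₀ := by exact_mod_cast Nat.pos_of_ne_zero hρ₀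
        rw [sub_re, one_re]
        have h5 : 0 < 1 - ((1 - v ρ₀) ^ n).re := by linarith
        positivity
    by_cases h3 : Real.cos (2 * Real.pi * ((N + 1 : ℕ) * ang (1 - v ρ₀))) < 1
    · exact ⟨N + 1, by omega, by omega, h2 _ h3⟩
    by_cases h4 : Real.cos (2 * Real.pi * ((N + 2 : ℕ) * ang (1 - v ρ₀))) < 1
    · exact ⟨N + 2, by omega, by omega, h2 _ h4⟩
    exfalso
    have h5 : Real.cos (2 * Real.pi * ((N + 1 : ℕ) * ang (1 - v ρ₀))) = 1 :=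
      le_antisymm (Real.cos_le_one _) (not_lt.mp h3)
    have h6 : Real.cos (2 * Real.pi * ((N + 2 : ℕ) * ang (1 - v ρ₀))) = 1 :=
      le_antisymm (Real.cos_le_one _) (not_lt.mp h4)
    rw [Real.cos_eq_one_iff] at h5 h6
    obtain ⟨a, ha⟩ := h5
    obtain ⟨b, hb⟩ := h6
    apply hang ρ₀ hρ₀ (b - a)
    have hpi := Real.pi_pos
    have h7 : 2 * Real.pi * (ang (1 - v ρ₀) - (b - a)) = 0 := by
      push_cast at ha hb
      linear_combination ha - hb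
    push_cast
    rcases mul_eq_zero.mp h7 with h8 | h8
    · linarith
    · linarith
  · push Not at hon
    obtain ⟨ρ₀, h1, h2⟩ := hon
    obtain ⟨c, K, _, hK⟩ := h.pos_syndetic_off hang h1 h2
    refine ⟨K, fun N => ?_⟩
    obtain ⟨n, hn1, hn2, hn3⟩ := hK N
    exact ⟨n, hn1, hn2, (Real.exp_pos _).trans_le hn3⟩

end Pool.Agent.Helper39.LiT
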