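import Pool.Agent.Helper39.LiT.Gen
import Pool.Agent.Helper39.LiS.Conv

set_option autoImplicit false

/-!
# The bases of the generalised Li coefficients of a half plane
-/

namespace Pool.Agent.Helper39.LiT

open Complex
open scoped ComplexConjugate
open Pool.Agent.Helper39.LiS (ex ex_add ex_zero ex_neg ex_re norm_ex ex_pow pow_mul_ex_re)

/-- the base at `ρ` is `1 - vh θ ρ = ρ / (ρ - 2 θ)` -/
noncomputable def vh (θ : ℝ) (ρ : ℂ) : ℂ := 1 - ρ / (ρ - 2 * θ)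

lemma base_eq (θ : ℝ) (ρ : ℂ) : 1 - vh θ ρ = ρ / (ρ - 2 * θ) := by
  unfold vh
  ring

section

variable {θ : ℝ} (h1 : 1 / 2 < θ) (h2 : θ < 1) {ρ : ℂ} (hρ : 0 < ρ.re ∧ ρ.re < 1)

include h1 hρ in
lemma sub_ne : ρ - 2 * θ ≠ 0 := by
  intro h
  have := congrArg Complex.re h
  simp at this
  linarith [hρ.2]

include h1 h2 hρ in
lemma sub_ge : 1 + ‖ρ‖ ≤ (1 + 3 / (2 * θ - 1)) * ‖ρ - 2 * θ‖ := by
  have h0 : 0 < 2 * θ - 1 := by linarith
  have h3 : 2 * θ - 1 ≤ ‖ρ - 2 * θ‖ := by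
    refine le_trans ?_ (Complex.abs_re_le_norm _)
    simp
    rw [abs_sub_comm]
    have h6 := le_abs_self (2 * θ - ρ.re)
    linarith [hρ.2]
  have h4 : ‖ρ‖ ≤ ‖ρ - 2 * θ‖ + 2 := by
    have h5 : ρ = (ρ - 2 * θ) + 2 * θ := by ring
    calc ‖ρ‖ = ‖(ρ - 2 * θ) + 2 * θ‖ := by rw [← h5]
      _ ≤ ‖ρ - 2 * θ‖ + ‖(2 * θ : ℂ)‖ := norm_add_le _ _
      _ ≤ ‖ρ - 2 * θ‖ + 2 := by
          have : ‖(2 * θ : ℂ)‖ = 2 * θ := by
            have e : (2 * θ : ℂ) = ((2 * θ : ℝ) : ℂ) := by push_cast; rfl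
            rw [e, Complex.norm_real, Real.norm_of_nonneg (by linarith)]
          rw [this]
          linarith
  have h5 : 3 ≤ 3 / (2 * θ - 1) * ‖ρ - 2 * θ‖ := by
    rw [div_mul_eq_mul_div, le_div_iff₀ h0]
    nlinarith
  nlinarith

include h1 hρ in
lemma vh_eq : vh θ ρ = 2 * θ / (2 * θ - ρ) := by
  have h3 := sub_ne h1 hρ
  have h4 : (2 * θ - ρ : ℂ) ≠ 0 := by
    intro h5
    apply h3
    linear_combination -h5
  unfold vh
  rw [eq_div_iff h4]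
  have h5 : (2 * θ - ρ : ℂ) = -(ρ - 2 * θ) := by ring
  rw [h5]
  field_simp
  ring

include h1 h2 hρ in
lemma vh_sq : ‖vh θ ρ‖ ^ 2 ≤ 4 * (1 + 3 / (2 * θ - 1)) ^ 2 / (1 + ‖ρ‖) ^ 2 := by
  have h3 := sub_ge h1 h2 hρ
  have h4 : 0 < ‖ρ - 2 * θ‖ := norm_pos_iff.mpr (sub_ne h1 hρ)
  rw [vh_eq h1 hρ, norm_div, div_pow, norm_sub_rev]
  have e : ‖(2 * θ : ℂ)‖ = 2 * θ := by
    have e : (2 * θ : ℂ) = ((2 * θ : ℝ) : ℂ) := by push_cast; rfl
    rw [e, Complex.norm_real, Real.norm_of_nonneg (by linarith)]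
  rw [e, div_le_div_iff₀ (by positivity) (by positivity)]
  calc (2 * θ) ^ 2 * (1 + ‖ρ‖) ^ 2 ≤ 4 * ((1 + 3 / (2 * θ - 1)) * ‖ρ - 2 * θ‖) ^ 2 := by
        gcongr
        nlinarith
    _ = _ := by ring

include h1 h2 hρ in
lemma vh_re : |(vh θ ρ).re| ≤ 4 * (1 + 3 / (2 * θ - 1)) ^ 2 / (1 + ‖ρ‖) ^ 2 := by
  have h3 := sub_ge h1 h2 hρ
  have h4 : 0 < ‖ρ - 2 * θ‖ := norm_pos_iff.mpr (sub_ne h1 hρ)
  have e : (vh θ ρ).re = 2 * θ * (2 * θ - ρ.re) / ‖ρ - 2 * θ‖ ^ 2 := by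
    rw [vh_eq h1 hρ]
    have e1 : (2 * θ / (2 * θ - ρ) : ℂ) = ((2 * θ : ℝ) : ℂ) * (2 * θ - ρ)⁻¹ := by
      push_cast
      rw [div_eq_mul_inv]
    rw [e1, re_ofReal_mul, inv_re, normSq_eq_norm_sq, norm_sub_rev]
    simp
    ring
  have h5 : 0 < 2 * θ - ρ.re := by linarith [hρ.2]
  have h6 : 0 < 2 * θ := by linarith
  rw [e, abs_of_nonneg (by positivity), div_le_div_iff₀ (by positivity) (by positivity)]
  calc 2 * θ * (2 * θ - ρ.re) * (1 + ‖ρ‖) ^ 2 ≤ 4 * ((1 + 3 / (2 * θ - 1)) * ‖ρ - 2 * θ‖) ^ 2 := by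
        gcongr
        nlinarith [hρ.1]
    _ = _ := by ring

include h1 hρ in
lemma base_sq : ‖1 - vh θ ρ‖ ^ 2 = 1 + 4 * θ * (ρ.re - θ) / ‖ρ - 2 * θ‖ ^ 2 := by
  have h4 : ‖ρ - 2 * θ‖ ≠ 0 := norm_ne_zero_iff.mpr (sub_ne h1 hρ)
  rw [base_eq, norm_div, div_pow]
  have e : ‖ρ‖ ^ 2 = ‖ρ - 2 * θ‖ ^ 2 + 4 * θ * (ρ.re - θ) := by
    rw [← normSq_eq_norm_sq, ← normSq_eq_norm_sq, normSq_apply, normSq_apply]
    simp
    ring
  rw [e]
  field_simp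

include h1 hρ in
lemma base_gt : 1 < ‖1 - vh θ ρ‖ ↔ θ < ρ.re := by
  have h4 : 0 < ‖ρ - 2 * θ‖ := norm_pos_iff.mpr (sub_ne h1 hρ)
  have e := base_sq h1 hρ
  have h5 : 1 < ‖1 - vh θ ρ‖ ↔ 1 < ‖1 - vh θ ρ‖ ^ 2 := by
    rw [one_lt_sq_iff₀ (norm_nonneg _)]
  rw [h5, e]
  constructor
  · intro h6
    by_contra h7
    push Not at h7
    have : 4 * θ * (ρ.re - θ) / ‖ρ - 2 * θ‖ ^ 2 ≤ 0 := by
      apply div_nonpos_of_nonpos_of_nonneg
      · nlinarith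
      · positivity
    linarith
  · intro h6
    have : 0 < 4 * θ * (ρ.re - θ) / ‖ρ - 2 * θ‖ ^ 2 := by
      apply div_pos
      · nlinarith
      · positivity
    linarith

include h1 hρ in
lemma base_le : ‖1 - vh θ ρ‖ ≤ 1 ↔ ρ.re ≤ θ := by
  rw [← not_lt, ← not_lt, base_gt h1 hρ]

include h1 hρ in
lemma base_ang (m : ℤ) : ang (1 - vh θ ρ) ≠ m := by
  apply ang_not_int
  rintro ⟨h3, h4⟩
  have hn : 0 < normSq (ρ - 2 * θ) := normSq_pos.mpr (sub_ne h1 hρ)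
  rw [base_eq] at h3 h4
  have him : ρ.im = 0 := by
    rw [div_im] at h4
    simp at h4
    have h5 : -(2 * θ * ρ.im) / normSq (ρ - 2 * θ) = 0 := by
      rw [← h4]
      ring
    rw [div_eq_zero_iff] at h5
    rcases h5 with h5 | h5
    · have h6 : 2 * θ * ρ.im = 0 := by linarith
      rcases mul_eq_zero.mp h6 with h7 | h7
      · linarith
      · exact h7
    · exact absurd h5 hn.ne'
  rw [div_re] at h3
  simp [him] at h3
  have h5 : ρ.re * (ρ.re - 2 * θ) / normSq (ρ - 2 * θ) < 0 := by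
    apply div_neg_of_neg_of_pos _ hn
    nlinarith [hρ.1, hρ.2]
  linarith

end

/-- the point with a given base -/
noncomputable def ph (θ R δ : ℝ) : ℂ := 2 * θ * (R * ex δ) / (R * ex δ - 1)

lemma ph_conj (θ R δ : ℝ) : conj (ph θ R δ) = ph θ R (-δ) := by
  unfold ph
  rw [ex_neg]
  have h2 : conj (2 : ℂ) = 2 := Complex.conj_ofNat 2
  simp [h2]

section pts

variable {θ R δ : ℝ} (h1 : 1 / 2 < θ) (h2 : θ < 1) (hR : 1 < R)
  (h : R ^ 2 * (2 * θ - 1) + 2 * (1 - θ) * (R * Real.cos (2 * Real.pi * δ)) < 1)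

include hR in
lemma ph_den : (R * ex δ - 1 : ℂ) ≠ 0 := by
  intro h0
  have h3 : (R * ex δ : ℂ) = 1 := by linear_combination h0
  have h4 : ‖(R * ex δ : ℂ)‖ = 1 := by rw [h3, norm_one]
  rw [norm_mul, norm_ex, mul_one, norm_real, Real.norm_of_nonneg (by linarith)] at h4
  linarith

include h1 hR in
lemma ph_base : 1 - vh θ (ph θ R δ) = R * ex δ := by
  have h3 := ph_den (R := R) (δ := δ) hR
  have h4 : (θ : ℂ) ≠ 0 := by exact_mod_cast (by linarith : θ ≠ 0)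
  have e : ph θ R δ - 2 * θ = 2 * θ / (R * ex δ - 1) := by
    unfold ph
    field_simp
    ring
  rw [base_eq, e]
  unfold ph
  field_simp

include h1 h2 hR h in
lemma ph_re : 0 < (ph θ R δ).re ∧ (ph θ R δ).re < 1 ∧ θ < (ph θ R δ).re := by
  obtain ⟨t, ht⟩ : ∃ t, t = R * Real.cos (2 * Real.pi * δ) := ⟨_, rfl⟩
  have hre : (R * ex δ : ℂ).re = t := by rw [re_ofReal_mul, ex_re, ht]
  have hN0 : normSq (R * ex δ : ℂ) = R ^ 2 := by
    rw [normSq_eq_norm_sq, norm_mul, norm_ex, norm_real, mul_one, sq, Real.norm_eq_abs, abs_mul_abs_self]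
    ring
  have hN : normSq (R * ex δ - 1 : ℂ) = 1 - 2 * t + R ^ 2 := by
    have e1 := hN0
    rw [normSq_apply] at e1 ⊢
    simp only [sub_re, one_re, sub_im, one_im, hre] at e1 ⊢
    linarith
  have hpos : 0 < 1 - 2 * t + R ^ 2 := by
    rw [← hN]
    exact normSq_pos.mpr (ph_den hR)
  have e : (ph θ R δ).re = 2 * θ * (R ^ 2 - t) / (1 - 2 * t + R ^ 2) := by
    unfold ph
    have e1 : (2 * θ * (R * ex δ) / (R * ex δ - 1) : ℂ) = ((2 * θ : ℝ) : ℂ) * ((R * ex δ) * (R * ex δ - 1)⁻¹) := by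
      push_cast
      rw [div_eq_mul_inv]
      ring
    have e2 : ((R * ex δ) * (R * ex δ - 1)⁻¹ : ℂ).re = (R ^ 2 - t) / (1 - 2 * t + R ^ 2) := by
      have e3 := hN0
      rw [normSq_apply, hre] at e3
      rw [mul_re, inv_re, inv_im, hN]
      simp only [sub_re, one_re, sub_im, one_im, hre, sub_zero]
      have e4 : t * ((t - 1) / (1 - 2 * t + R ^ 2)) - (R * ex δ : ℂ).im * (-(R * ex δ : ℂ).im / (1 - 2 * t + R ^ 2)) =
          (t * (t - 1) + (R * ex δ : ℂ).im * (R * ex δ : ℂ).im) / (1 - 2 * t + R ^ 2) := by ring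
      rw [e4]
      congr 1
      linarith
    rw [e1, re_ofReal_mul, e2]
    ring
  rw [← ht] at h
  have hR2 : 1 < R ^ 2 := by nlinarith
  have h3 : θ < (ph θ R δ).re := by
    rw [e, lt_div_iff₀ hpos]
    nlinarith
  refine ⟨by linarith, ?_, h3⟩
  rw [e, div_lt_one hpos]
  nlinarith

end pts

end Pool.Agent.Helper39.LiT
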